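import Pool.Agent.Lib.MP_7eef47_al.GQ.Emb
import Pool.Agent.Lib.MP_7eef47_al.U.Transfer

set_option autoImplicit false
set_option linter.unusedSectionVars false

namespace Pool.Agent.Lib.MP_7eef47_al.GQ

open Pool.Agent.Lib.MP_b03b3a_al Pool.Agent.Lib.MP_7eef47_al.U Classical
open Pool.Agent.Lib.MP_7eef47_al.GP (GraphProduct inc inc_comm)

variable {V : Type} [Finite V] {Γ : SimpleGraph V} {A : V → Type} [∀ v, Group (A v)]
  {D : ∀ v, VD (A v)}

/-- Admissible letters. -/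
def Adm (x : GraphProduct Γ A × Finset V) (i : Σ v, (D v).L) : Prop :=
  (∀ u ∈ x.2, u = i.1 ∨ Γ.Adj u i.1) ∧ (i.1 ∉ x.2 → π D x.1 i.1 = (D i.1).pi ((D i.1).lam i.2))

variable (D) in
/-- Consistent states. -/
def Ok (x : GraphProduct Γ A × Finset V) : Prop :=
  ∀ u ∈ x.2, π D x.1 u = 1 ∧ ∀ u' ∈ x.2, u = u' ∨ Γ.Adj u u'

theorem mem_mv_ne {i : Σ v, (D v).L} {x : GraphProduct Γ A × Finset V} {u : V} (h : u ≠ i.1) :
    u ∈ (mv i x).2 ↔ u ∈ x.2 := by
  unfold mv
  split_ifs <;> simp [h]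

theorem mem_mv_self {i : Σ v, (D v).L} {x : GraphProduct Γ A × Finset V} :
    i.1 ∈ (mv i x).2 ↔ i.1 ∉ x.2 := by
  unfold mv
  split_ifs with h <;> simp [h]

theorem π_mv_ne {i : Σ v, (D v).L} {x : GraphProduct Γ A × Finset V} {u : V} (h : u ≠ i.1) :
    π D (mv i x).1 u = π D x.1 u := by
  unfold mv
  split_ifs <;> simp [π_gn, Pi.mulSingle_eq_of_ne h]

theorem ok_mv {i : Σ v, (D v).L} {x : GraphProduct Γ A × Finset V} (h : Ok D x) (ha : Adm x i) :
    Ok D (mv i x) := by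
  intro u hu
  by_cases e : u = i.1
  · subst e
    have hn := mem_mv_self.1 hu
    refine ⟨?_, fun u' hu' => ?_⟩
    · simp [mv, hn, π_gn, ha.2 hn]
    · by_cases e' : u' = i.1
      · exact Or.inl e'.symm
      · exact Or.inr ((ha.1 u' ((mem_mv_ne e').1 hu')).resolve_left e').symm
  · have hu0 := (mem_mv_ne e).1 hu
    refine ⟨by rw [π_mv_ne e]; exact (h u hu0).1, fun u' hu' => ?_⟩
    by_cases e' : u' = i.1
    · rw [e']; exact ha.1 u hu0
    · exact (h u hu0).2 u' ((mem_mv_ne e').1 hu')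

theorem adm_back {i : Σ v, (D v).L} {x : GraphProduct Γ A × Finset V} (h : Ok D x) (ha : Adm x i) :
    Adm (mv i x) i := by
  refine ⟨fun u hu => ?_, fun hn => ?_⟩
  · by_cases e : u = i.1
    · exact Or.inl e
    · exact ha.1 u ((mem_mv_ne e).1 hu)
  · have hm : i.1 ∈ x.2 := not_not.1 fun h' => hn (mem_mv_self.2 h')
    simp [mv, hm, π_gn, (h _ hm).1]

theorem adm_comm {i j : Σ v, (D v).L} {x : GraphProduct Γ A × Finset V} (h : Γ.Adj i.1 j.1) :
    Adm (mv j x) i ↔ Adm x i := by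
  unfold Adm
  rw [mem_mv_ne h.ne, π_mv_ne h.ne]
  refine and_congr_left fun _ => forall_congr' fun u => ?_
  by_cases e : u = j.1
  · subst e
    simp [h.symm]
  · rw [mem_mv_ne e]

/-- Admissible paths of bounded length. -/
inductive Pth : ℕ → (R Γ D).W → (R Γ D).W → Prop
  | nil (n : ℕ) (x : (R Γ D).W) : Pth n x x
  | cons {n : ℕ} {x y : (R Γ D).W} (i : Σ v, (D v).L) : Adm (ρ x) i → Pth n (x * (R Γ D).s i) y →
      Pth (n + 1) x y

theorem Pth.mono {n : ℕ} {x y : (R Γ D).W} (h : Pth n x y) : Pth (n + 1) x y := by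
  induction h with
  | nil n x => exact .nil _ _
  | cons i ha _ ih => exact .cons i ha ih

theorem Pth.trans {n m : ℕ} {x y z : (R Γ D).W} (h : Pth n x y) (h' : Pth m y z) :
    ∃ k, Pth k x z := by
  induction h with
  | nil n x => exact ⟨_, h'⟩
  | cons i ha _ ih =>
    obtain ⟨k, hk⟩ := ih h'
    exact ⟨_, .cons i ha hk⟩

theorem Pth.ok {n : ℕ} {x y : (R Γ D).W} (h : Pth n x y) (hx : Ok D (ρ x)) : Ok D (ρ y) := by
  induction h with
  | nil n x => exact hx
  | cons i ha _ ih => exact ih (by rw [ρ_s]; exact ok_mv hx ha)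

theorem Pth.symm {n : ℕ} {x y : (R Γ D).W} (h : Pth n x y) (hx : Ok D (ρ x)) : ∃ k, Pth k y x := by
  induction h with
  | nil n x => exact ⟨0, .nil _ _⟩
  | @cons n x y i ha _ ih =>
    obtain ⟨k, hk⟩ := ih (by rw [ρ_s]; exact ok_mv hx ha)
    refine hk.trans (m := 1) (.cons i (by rw [ρ_s]; exact adm_back hx ha) ?_)
    rw [mul_assoc, RG.s_s, mul_one]
    exact .nil _ _

theorem wall_comm {x : (R Γ D).W} {i j : Σ v, (D v).L} (h : (R Γ D).adj i j) :
    x * (R Γ D).s j * (R Γ D).s i * (x * (R Γ D).s j)⁻¹ = x * (R Γ D).s i * x⁻¹ := by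
  rw [mul_assoc x, ← (R Γ D).s_comm h]
  group

/-- A wall next to the start of an admissible path that separates its ends is admissible. -/
theorem first_letter : ∀ (n : ℕ) (x y : (R Γ D).W), Pth n x y → ∀ i,
    (R Γ D).N x (x * (R Γ D).s i * x⁻¹) ≠ (R Γ D).N y (x * (R Γ D).s i * x⁻¹) →
    Adm (ρ x) i ∧ ∃ m, m < n ∧ Pth m (x * (R Γ D).s i) y := by
  intro n
  induction n using Nat.strong_induction_on with
  | _ n ih =>
    intro x y h i hi
    cases h with
    | nil => exact absurd rfl hi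
    | @cons n _ _ j ha hp =>
      by_cases e : i = j
      · subst e
        exact ⟨ha, n, n.lt_succ_self, hp⟩
      by_cases hj : (R Γ D).N x (x * (R Γ D).s j * x⁻¹) = (R Γ D).N y (x * (R Γ D).s j * x⁻¹)
      · have e1 : x * (R Γ D).s j * (R Γ D).s j * (x * (R Γ D).s j)⁻¹ =
            x * (R Γ D).s j * x⁻¹ := by
          rw [mul_inv_rev, RG.s_inv, mul_assoc x, RG.s_s, mul_one, mul_assoc]
        obtain ⟨-, m, hm, hp'⟩ := ih n n.lt_succ_self _ y hp j (by
          rw [e1, N_step_eq, hj]; simp)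
        rw [mul_assoc, RG.s_s, mul_one] at hp'
        obtain ⟨a1, k, hk, a2⟩ := ih m (by omega) x y hp' i hi
        exact ⟨a1, k, by omega, a2⟩
      · have adj : (R Γ D).adj i j := desc_adj (R Γ D) e hi hj
        obtain ⟨a1, m, hm, a2⟩ := ih n n.lt_succ_self _ y hp i (by
          rw [wall_comm adj, N_step_ne _ x j fun h' => e ((R Γ D).conj_inj h')]
          exact hi)
        rw [ρ_s, adm_comm adj] at a1
        refine ⟨a1, m + 1, by omega, .cons j ?_ ?_⟩
        · rw [ρ_s, adm_comm (SimpleGraph.Adj.symm adj)]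
          exact ha
        · rwa [mul_assoc, (R Γ D).s_comm adj, ← mul_assoc]

variable (Γ D)

/-- The convex set. -/
def Y : Set (R Γ D).W := {w | ∃ n, Pth n 1 w}

variable {Γ D}

theorem ok_one : Ok D (ρ (1 : (R Γ D).W)) := by
  rw [ρ_one]
  intro u hu
  simp at hu

theorem Y_ok {w : (R Γ D).W} (h : w ∈ Y Γ D) : Ok D (ρ w) := h.choose_spec.ok ok_one

theorem Y_step {w : (R Γ D).W} (h : w ∈ Y Γ D) {i : Σ v, (D v).L} (ha : Adm (ρ w) i) :
    w * (R Γ D).s i ∈ Y Γ D := h.choose_spec.trans (m := 1) (.cons i ha (.nil _ _))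

theorem Y_adm {x y : (R Γ D).W} (hx : x ∈ Y Γ D) (hy : y ∈ Y Γ D) {i : Σ v, (D v).L}
    (hi : (R Γ D).N x (x * (R Γ D).s i * x⁻¹) ≠ (R Γ D).N y (x * (R Γ D).s i * x⁻¹)) :
    Adm (ρ x) i := by
  obtain ⟨k, hk⟩ := hx.choose_spec.symm ok_one
  obtain ⟨m, hm⟩ := hk.trans hy.choose_spec
  exact (first_letter m x y hm i hi).1

theorem Y_conv {y z : (R Γ D).W} (hy : y ∈ Y Γ D) : ∀ (n : ℕ) (x : (R Γ D).W),
    d (R Γ D) x z = n → x ∈ Y Γ D → Btw (R Γ D) x z y → z ∈ Y Γ D := by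
  intro n
  induction n with
  | zero =>
    intro x h hx _
    rwa [← eq_of_d _ h]
  | succ n ih =>
    intro x h hx hb
    have hne : x ≠ z := by rintro rfl; rw [d_self] at h; omega
    obtain ⟨i, hi⟩ := exists_wall _ hne
    have hi' : (R Γ D).N x (x * (R Γ D).s i * x⁻¹) ≠ (R Γ D).N y (x * (R Γ D).s i * x⁻¹) :=
      fun e => hi (hb _ e).symm
    have a1 := d_step_of_ne _ hi
    have a2 := d_step_of_ne _ hi'
    have a3 := (btw_iff _).1 hb
    exact ih _ (by omega) (Y_step hx (Y_adm hx hy hi')) ((btw_iff _).2 (by omega))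

theorem leaf_mem {x : GraphProduct Γ A} (hx : c D x ∈ Y Γ D) {v : V} {i : (D v).L}
    (h : π D x v = (D v).pi ((D v).lam i)) (j : (D v).L) :
    c D x * s Γ D v i * s Γ D v j ∈ Y Γ D := by
  refine Y_step (Y_step hx ?_) ?_
  · rw [ρ_c]
    exact ⟨fun u hu => by simp at hu, fun _ => h⟩
  · rw [ρ_s, ρ_c]
    refine ⟨fun u hu => Or.inl ?_, fun hn => absurd (mem_mv_self (i := ⟨v, i⟩).2 ?_) hn⟩
    · simpa [mv] using hu
    · simp

theorem c_mem (g : GraphProduct Γ A) : c D g ∈ Y Γ D := by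
  induction g using ind (D := D) with
  | h1 => rw [c_one]; exact ⟨0, .nil _ _⟩
  | h2 g v j =>
    obtain ⟨a, ha⟩ := π_range (D := D) g v
    constructor
    · intro ih
      rw [c_mul_gn]
      exact leaf_mem ih (by rw [ha, VD.h1]) _
    · intro ih
      have := leaf_mem ih (v := v) (i := π D g v j) (by
        rw [map_mul, π_gn, Pi.mul_apply, Pi.mulSingle_eq_same, ha, VD.pi_lam]) (π D g v (D v).o)
      rwa [← c_leaf g v j (D v).o, gn_o, mul_one] at this

/-- An open vertex must be closed. -/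
theorem close_wall {y : (R Γ D).W} (hy : y ∈ Y Γ D) {v : V} (hv : v ∉ (ρ y).2) :
    ∀ (n : ℕ) (x : (R Γ D).W), d (R Γ D) x y = n → x ∈ Y Γ D → v ∈ (ρ x).2 →
      ∃ a, (R Γ D).N x (x * s Γ D v a * x⁻¹) ≠ (R Γ D).N y (x * s Γ D v a * x⁻¹) := by
  intro n
  induction n using Nat.strong_induction_on with
  | _ n ih =>
    intro x h hx hvx
    have hne : x ≠ y := by rintro rfl; exact hv hvx
    obtain ⟨j, hj⟩ := exists_wall _ hne
    have ha := Y_adm hx hy hj
    rcases ha.1 v hvx with e | e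
    · obtain ⟨u, b⟩ := j
      subst e
      exact ⟨b, hj⟩
    · have a1 := d_step_of_ne _ hj
      obtain ⟨a, h'⟩ := ih _ (by omega) (x * (R Γ D).s j) rfl (Y_step hx ha)
        (by rw [ρ_s, mem_mv_ne e.ne]; exact hvx)
      refine ⟨a, ?_⟩
      have adj : (R Γ D).adj ⟨v, a⟩ j := e
      rwa [s, wall_comm adj, N_step_ne _ x j fun h'' =>
        (R Γ D).irrefl _ ((R Γ D).conj_inj h'' ▸ adj)] at h'

/-- First step of a geodesic in the graph product. -/
theorem step {y : (R Γ D).W} (hy : y ∈ Y Γ D) (hy' : (ρ y).2 = ∅) {g : GraphProduct Γ A}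
    (hne : c D g ≠ y) : ∃ v i j, d (R Γ D) (c D (g * (gn Γ D v i)⁻¹ * gn Γ D v j)) y + 2 =
      d (R Γ D) (c D g) y := by
  obtain ⟨⟨v, b⟩, hi⟩ := exists_wall _ hne
  have ha := Y_adm (c_mem g) hy hi
  have hb : π D g v = (D v).pi ((D v).lam b) := by
    have := ha.2 (by rw [ρ_c]; simp)
    rwa [ρ_c] at this
  obtain ⟨a, h⟩ := close_wall hy (v := v) (by rw [hy']; simp) _ _ rfl (Y_step (c_mem g) ha)
    (by rw [ρ_s]; exact mem_mv_self.2 (by rw [ρ_c]; simp))
  have a1 := d_step_of_ne _ hi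
  have a2 := d_step_of_ne _ h
  refine ⟨v, b, a, ?_⟩
  rw [c_adm hb]
  unfold s
  omega

theorem eq_c {y : (R Γ D).W} (hy : y ∈ Y Γ D) (hy' : (ρ y).2 = ∅) : ∃ g, c D g = y := by
  have key : ∀ (n : ℕ) (g : GraphProduct Γ A), d (R Γ D) (c D g) y = n → ∃ g, c D g = y := by
    intro n
    induction n using Nat.strong_induction_on with
    | _ n ih =>
      intro g h
      by_cases e : c D g = y
      · exact ⟨g, e⟩
      · obtain ⟨v, i, j, h'⟩ := step hy hy' e
        exact ih _ (by omega) (g * (gn Γ D v i)⁻¹ * gn Γ D v j) rfl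
  exact key _ 1 rfl

theorem near_c : ∀ (n : ℕ) (y : (R Γ D).W), y ∈ Y Γ D → (ρ y).2.card = n →
    ∃ g, d (R Γ D) (c D g) y ≤ n := by
  intro n
  induction n with
  | zero =>
    intro y hy h
    obtain ⟨g, rfl⟩ := eq_c hy (Finset.card_eq_zero.1 h)
    exact ⟨g, by rw [d_self]⟩
  | succ n ih =>
    intro y hy h
    obtain ⟨v, hv⟩ := Finset.card_pos.1 (show 0 < (ρ y).2.card by omega)
    have ha : Adm (ρ y) ⟨v, (D v).o⟩ :=
      ⟨fun u hu => (Y_ok hy u hu).2 v hv, fun hn => absurd hv hn⟩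
    obtain ⟨g, hg⟩ := ih _ (Y_step hy ha) (by
      rw [ρ_s]
      simp only [mv, hv, if_true]
      rw [Finset.card_erase_of_mem hv]
      omega)
    have a1 := d_tri (R Γ D) (c D g) (y * (R Γ D).s ⟨v, (D v).o⟩) y
    have a2 := d_step (R Γ D) y ⟨v, (D v).o⟩
    rw [d_comm] at a2
    exact ⟨g, by omega⟩

theorem d_α_le (p : ∀ v, Equiv.Perm (D v).L) : ∀ (n : ℕ) (x y : (R Γ D).W), d (R Γ D) x y = n →
    d (R Γ D) (α Γ D p x) (α Γ D p y) ≤ n := by
  intro n
  induction n with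
  | zero =>
    intro x y h
    rw [eq_of_d _ h, d_self]
  | succ n ih =>
    intro x y h
    have hne : x ≠ y := by rintro rfl; rw [d_self] at h; omega
    obtain ⟨⟨v, a⟩, -, hi⟩ := exists_step _ hne
    have a1 := ih (x * s Γ D v a) y (by unfold s; omega)
    have a2 := d_tri (R Γ D) (α Γ D p x) (α Γ D p (x * s Γ D v a)) (α Γ D p y)
    have a3 := d_step (R Γ D) (α Γ D p x) ⟨v, p v a⟩
    rw [map_mul, α_s] at a1 a2
    unfold s at a1 a2
    omega

theorem d_c_mul (g x y : GraphProduct Γ A) :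
    d (R Γ D) (c D (g * x)) (c D (g * y)) = d (R Γ D) (c D x) (c D y) := by
  have key : ∀ g x y : GraphProduct Γ A,
      d (R Γ D) (c D (g * x)) (c D (g * y)) ≤ d (R Γ D) (c D x) (c D y) := fun g x y => by
    rw [c_mul, c_mul, d_mul]
    exact d_α_le _ _ _ _ rfl
  refine le_antisymm (key g x y) ?_
  have := key g⁻¹ (g * x) (g * y)
  rwa [inv_mul_cancel_left, inv_mul_cancel_left] at this

/-- The embedding of the kernel. -/
noncomputable def ι : (π D : GraphProduct Γ A →* _).ker →* (R Γ D).cm.Group where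
  toFun k := c D (k : GraphProduct Γ A)
  map_one' := c_one
  map_mul' k l := by
    have := c_mul (D := D) (k : GraphProduct Γ A) l
    rw [k.2, map_one] at this
    exact this

theorem ι_inj : Function.Injective (ι (Γ := Γ) (D := D)) := fun _ _ e => Subtype.ext (c_inj e)

theorem ι_cc : ConvexCocompact (R Γ D).cm (ι (Γ := Γ) (D := D)).range := by
  obtain ⟨t, ht1, -, -, ht⟩ := Tr.exists_rep (π D : GraphProduct Γ A →* _).ker ⊥
  obtain ⟨B, hB⟩ := Tr.bdd ht fun a => d (R Γ D) (c D 1) (c D a)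
  have := Fintype.ofFinite V
  refine ⟨Y Γ D, B + Fintype.card V, ?_, fun x hx y hy z hz => ?_, fun y hy => ?_⟩
  · rintro _ ⟨k, rfl⟩
    exact c_mem _
  · exact Y_conv hy _ x rfl hx ((btw_iff (R Γ D)).2 hz)
  · obtain ⟨g, hg⟩ := near_c _ y hy rfl
    refine ⟨_, ⟨⟨_, ht1 g⟩, rfl⟩, ?_⟩
    show d (R Γ D) (c D (g * (t g)⁻¹)) y ≤ _
    have a1 := hB _ ⟨g, rfl⟩
    rw [← d_c_mul (g * (t g)⁻¹), mul_one, inv_mul_cancel_right] at a1
    have a2 := d_tri (R Γ D) (c D (g * (t g)⁻¹)) (c D g) y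
    have a3 := Finset.card_le_univ (ρ y).2
    omega

end Pool.Agent.Lib.MP_7eef47_al.GQ
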