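import Pool.Agent.Lib.MP_7eef47_al.GP.Emb

set_option autoImplicit false
set_option linter.unusedSectionVars false

namespace Pool.Agent.Lib.MP_7eef47_al.GQ

open Pool.Agent.Lib.MP_b03b3a_al Pool.Agent.Lib.MP_7eef47_al.U Classical
open Pool.Agent.Lib.MP_7eef47_al.GP (GraphProduct inc inc_comm lift lift_inc)

/-- An action of a vertex group on a tree of stars. -/
structure VD (A : Type) [Group A] where
  L : Type
  fin : Finite L
  o : L
  lam : L → A
  pi : A →* Equiv.Perm L
  gen : Subgroup.closure (Set.range lam) = ⊤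
  h1 : ∀ a, pi (lam (pi a o)) = pi a
  h2 : ∀ a j, lam (pi a j) = lam (pi a o) * lam j
  hom : ∀ (K : Type) [Group K] (s : L → K) (σ : Equiv.Perm L →* K), (∀ j, s j * s j = 1) →
    (∀ p j, σ p * s j = s (p j) * σ p) → ∃ φ : A →* K, ∀ j, φ (lam j) = s o * s j * σ (pi (lam j))
  alt : (∀ a, ∃ j, a = lam j) ∨ ∀ a, pi a = 1

attribute [instance] VD.fin

/-- Finite vertex groups. -/
def finVD (A : Type) [Group A] [Finite A] : VD A where
  L := A
  fin := inferInstance
  o := 1
  lam := id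
  pi := MulAction.toPermHom A A
  gen := by simp
  h1 := by simp
  h2 := by simp
  hom K _ s σ hs hσ := ⟨MonoidHom.mk' (fun a => s 1 * s a * σ (MulAction.toPermHom A A a))
    (fun a b => by
      have e1 := hσ (MulAction.toPermHom A A a) 1
      have e2 := hσ (MulAction.toPermHom A A a) b
      simp only [MulAction.toPermHom_apply, MulAction.toPerm_apply, smul_eq_mul, mul_one] at e1 e2
      rw [map_mul, map_mul]
      simp only [MulAction.toPermHom_apply, mul_assoc]
      rw [← mul_assoc (σ _) (s 1), e1, mul_assoc, ← mul_assoc (σ _) (s b), e2,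
        ← mul_assoc (s a) (s a), hs, one_mul, mul_assoc]), fun _ => rfl⟩
  alt := Or.inl fun a => ⟨a, rfl⟩

/-- Infinite cyclic vertex groups. -/
def intVD (A : Type) [Group A] (e : Multiplicative ℤ ≃* A) : VD A where
  L := Bool
  fin := inferInstance
  o := false
  lam b := if b then e (Multiplicative.ofAdd 1) else 1
  pi := 1
  gen := by
    rw [eq_top_iff]
    intro a _
    obtain ⟨n, rfl⟩ := e.surjective a
    have : e n = e (Multiplicative.ofAdd 1) ^ n.toAdd := by
      rw [← map_zpow, ← ofAdd_zsmul]; simp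
    rw [this]
    exact zpow_mem (Subgroup.subset_closure (Set.mem_range.2 ⟨true, by simp⟩)) _
  h1 := by simp
  h2 := by simp
  hom K _ s σ hs _ := ⟨(zpowersHom K (s false * s true)).comp e.symm.toMonoidHom, fun j => by
    cases j <;> simp [hs]⟩
  alt := Or.inr fun _ => rfl

theorem VD.lam_o {A : Type} [Group A] (D : VD A) : D.lam D.o = 1 := by
  have := D.h2 1 D.o
  simpa using this

theorem VD.pi_lam {A : Type} [Group A] (D : VD A) (a : A) (j : D.L) :
    D.pi (D.lam (D.pi a j)) = D.pi a * D.pi (D.lam j) := by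
  rw [D.h2, map_mul, D.h1]

theorem VD.ind {A : Type} [Group A] (D : VD A) {K : Subgroup A} (h : ∀ j, D.lam j ∈ K) (a : A) :
    a ∈ K := by
  have : Subgroup.closure (Set.range D.lam) ≤ K :=
    (Subgroup.closure_le _).2 (by rintro _ ⟨j, rfl⟩; exact h j)
  exact this (D.gen ▸ Subgroup.mem_top a)

variable {V : Type} (Γ : SimpleGraph V) {A : V → Type} [∀ v, Group (A v)] (D : ∀ v, VD (A v))

/-- The right-angled Coxeter group on the letters. -/
def R : RG (Σ v, (D v).L) where
  adj x y := Γ.Adj x.1 y.1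
  symm _ _ h := h.symm
  irrefl _ := Γ.irrefl

/-- The generators of the graph product. -/
def gn (v : V) (j : (D v).L) : GraphProduct Γ A := inc Γ A v ((D v).lam j)

variable {Γ D}

theorem gn_o (v : V) : gn Γ D v (D v).o = 1 := by rw [gn, VD.lam_o, map_one]

theorem ind {p : GraphProduct Γ A → Prop} (g : GraphProduct Γ A) (h1 : p 1)
    (h2 : ∀ g v j, p g ↔ p (g * gn Γ D v j)) : p g := by
  have key : ∀ v (a : A v) g, p g ↔ p (g * inc Γ A v a) := fun v a =>
    (D v).ind (K :=
      { carrier := {a | ∀ g, p g ↔ p (g * inc Γ A v a)}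
        one_mem' := fun g => by simp
        mul_mem' := fun {a b} ha hb g => by rw [map_mul, ← mul_assoc, ← hb, ← ha]
        inv_mem' := fun {a} ha g => by
          rw [ha (g * inc Γ A v a⁻¹), map_inv, inv_mul_cancel_right] }) (fun j g => h2 g v j) a
  induction g using GP.ind with
  | h1 => exact h1
  | h2 g v a ih => exact (key v a g).1 ih

theorem hΓ (γ : ∀ v, Equiv.Perm (D v).L) (a b : Σ v, (D v).L) (h : (R Γ D).adj a b) :
    (R Γ D).adj (⟨a.1, γ a.1 a.2⟩ : Σ v, (D v).L) ⟨b.1, γ b.1 b.2⟩ := h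

/-- The product of the symmetric groups permutes the letters. -/
@[reducible] def act : MulAction (∀ v, Equiv.Perm (D v).L) (Σ v, (D v).L) where
  smul γ x := ⟨x.1, γ x.1 x.2⟩
  one_smul _ := rfl
  mul_smul _ _ _ := rfl

variable (Γ D)

/-- The induced automorphisms. -/
noncomputable def α : (∀ v, Equiv.Perm (D v).L) →* MulAut (R Γ D).W :=
  @RG.aut _ (R Γ D) _ _ act hΓ

/-- A generator. -/
noncomputable def s (v : V) (a : (D v).L) : (R Γ D).W := (R Γ D).s ⟨v, a⟩

variable {Γ D}

theorem α_s (γ : ∀ v, Equiv.Perm (D v).L) (v : V) (a : (D v).L) :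
    α Γ D γ (s Γ D v a) = s Γ D v (γ v a) := @RG.aut_s _ (R Γ D) _ _ act hΓ γ ⟨v, a⟩

theorem N_α (γ : ∀ v, Equiv.Perm (D v).L) (w r : (R Γ D).W) :
    (R Γ D).N (α Γ D γ w) (α Γ D γ r) = (R Γ D).N w r := @RG.N_aut _ (R Γ D) _ _ act hΓ γ w r

theorem s_s (v : V) (a : (D v).L) : s Γ D v a * s Γ D v a = 1 := (R Γ D).s_s _

theorem s_inv (v : V) (a : (D v).L) : (s Γ D v a)⁻¹ = s Γ D v a := (R Γ D).s_inv _

theorem s_comm {u v : V} (h : Γ.Adj u v) (a : (D u).L) (b : (D v).L) :
    s Γ D u a * s Γ D v b = s Γ D v b * s Γ D u a := (R Γ D).s_comm h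

variable (Γ D)

theorem exists_phi (v : V) :
    ∃ φ : A v →* (R Γ D).W ⋊[α Γ D] (∀ v, Equiv.Perm (D v).L), ∀ j, φ ((D v).lam j) =
      ⟨s Γ D v (D v).o * s Γ D v j, Pi.mulSingle v ((D v).pi ((D v).lam j))⟩ := by
  obtain ⟨φ, h⟩ := (D v).hom ((R Γ D).W ⋊[α Γ D] (∀ v, Equiv.Perm (D v).L))
    (fun j => SemidirectProduct.inl (s Γ D v j))
    (SemidirectProduct.inr.comp (MonoidHom.mulSingle (fun v => Equiv.Perm (D v).L) v))
    (fun j => by rw [← map_mul, s_s, map_one])
    (fun p j => by ext1 <;> simp [α_s])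
  exact ⟨φ, fun j => by rw [h]; ext1 <;> simp⟩

/-- The image of a vertex group. -/
noncomputable def phiV (v : V) : A v →* (R Γ D).W ⋊[α Γ D] (∀ v, Equiv.Perm (D v).L) :=
  (exists_phi Γ D v).choose

theorem phiV_lam (v : V) (j : (D v).L) : phiV Γ D v ((D v).lam j) =
    ⟨s Γ D v (D v).o * s Γ D v j, Pi.mulSingle v ((D v).pi ((D v).lam j))⟩ :=
  (exists_phi Γ D v).choose_spec j

theorem phiV_comm (u v : V) (h : Γ.Adj u v) (a : A u) (b : A v) :
    phiV Γ D u a * phiV Γ D v b = phiV Γ D v b * phiV Γ D u a := by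
  have hne := h.ne
  have base : ∀ i j, phiV Γ D u ((D u).lam i) * phiV Γ D v ((D v).lam j) =
      phiV Γ D v ((D v).lam j) * phiV Γ D u ((D u).lam i) := fun i j => by
    rw [phiV_lam, phiV_lam]
    ext1
    · simp only [SemidirectProduct.mul_left, map_mul, α_s, Pi.mulSingle_eq_of_ne hne,
        Pi.mulSingle_eq_of_ne hne.symm, Equiv.Perm.one_apply]
      have c : ∀ a b, Commute (s Γ D u a) (s Γ D v b) := s_comm h
      exact (((c _ _).mul_right (c _ _)).mul_left ((c _ _).mul_right (c _ _))).eq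
    · exact (Pi.mulSingle_commute hne _ _).eq
  have h1 : ∀ i b, phiV Γ D u ((D u).lam i) * phiV Γ D v b =
      phiV Γ D v b * phiV Γ D u ((D u).lam i) := fun i b =>
    Subgroup.mem_centralizer_singleton_iff.1 ((D v).ind
      (K := (Subgroup.centralizer {phiV Γ D u ((D u).lam i)}).comap (phiV Γ D v))
      (fun j => Subgroup.mem_centralizer_singleton_iff.2 (base i j).symm) b) |>.symm
  exact Subgroup.mem_centralizer_singleton_iff.1 ((D u).ind
    (K := (Subgroup.centralizer {phiV Γ D v b}).comap (phiV Γ D u))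
    (fun i => Subgroup.mem_centralizer_singleton_iff.2 (h1 i b)) a)

/-- The representation in the extended Coxeter group. -/
noncomputable def Φ : GraphProduct Γ A →* (R Γ D).W ⋊[α Γ D] (∀ v, Equiv.Perm (D v).L) :=
  lift (phiV Γ D) (phiV_comm Γ D)

variable {Γ}

/-- The orbit map. -/
noncomputable def c (g : GraphProduct Γ A) : (R Γ D).W := (Φ Γ D g).left

/-- The map to the finite group. -/
noncomputable def π : GraphProduct Γ A →* ∀ v, Equiv.Perm (D v).L :=
  SemidirectProduct.rightHom.comp (Φ Γ D)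

variable {D}

theorem c_one : c D (1 : GraphProduct Γ A) = 1 := by simp [c]

theorem c_mul (g h : GraphProduct Γ A) : c D (g * h) = c D g * α Γ D (π D g) (c D h) := by
  simp [c, π]

theorem π_gn (v : V) (j : (D v).L) :
    π D (gn Γ D v j) = Pi.mulSingle v ((D v).pi ((D v).lam j)) := by
  simp [π, Φ, gn, lift_inc, phiV_lam]

theorem c_gn (v : V) (j : (D v).L) : c D (gn Γ D v j) = s Γ D v (D v).o * s Γ D v j := by
  simp [c, Φ, gn, lift_inc, phiV_lam]

theorem c_mul_gn (g : GraphProduct Γ A) (v : V) (j : (D v).L) :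
    c D (g * gn Γ D v j) = c D g * s Γ D v (π D g v (D v).o) * s Γ D v (π D g v j) := by
  rw [c_mul, c_gn, map_mul, α_s, α_s, mul_assoc]

theorem c_leaf (z : GraphProduct Γ A) (v : V) (i j : (D v).L) :
    c D (z * gn Γ D v j) = c D (z * gn Γ D v i) * s Γ D v (π D z v i) * s Γ D v (π D z v j) := by
  rw [c_mul_gn, c_mul_gn, mul_assoc _ (s Γ D v (π D z v i)) (s Γ D v (π D z v i)), s_s, mul_one]

theorem π_range (g : GraphProduct Γ A) (v : V) : ∃ a, π D g v = (D v).pi a := by
  induction g using ind (D := D) with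
  | h1 => exact ⟨1, by simp⟩
  | h2 g u j =>
    rw [map_mul, π_gn, Pi.mul_apply]
    by_cases e : v = u
    · subst e
      rw [Pi.mulSingle_eq_same]
      constructor
      · rintro ⟨a, ha⟩
        exact ⟨a * (D v).lam j, by rw [map_mul, ha]⟩
      · rintro ⟨a, ha⟩
        exact ⟨a * ((D v).lam j)⁻¹, by rw [map_mul, map_inv, ← ha, mul_inv_cancel_right]⟩
    · rw [Pi.mulSingle_eq_of_ne e, mul_one]

theorem c_adm {x : GraphProduct Γ A} {v : V} {i : (D v).L}
    (h : π D x v = (D v).pi ((D v).lam i)) (j : (D v).L) :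
    c D (x * (gn Γ D v i)⁻¹ * gn Γ D v j) = c D x * s Γ D v i * s Γ D v j := by
  have e : π D (x * (gn Γ D v i)⁻¹) v = 1 := by
    rw [map_mul, map_inv, π_gn, Pi.mul_apply, Pi.inv_apply, Pi.mulSingle_eq_same, h,
      mul_inv_cancel]
  rw [c_leaf _ v i j, inv_mul_cancel_right, e]
  rfl

/-- One move of the state machine. -/
noncomputable def mv (i : Σ v, (D v).L) (x : GraphProduct Γ A × Finset V) :
    GraphProduct Γ A × Finset V :=
  if i.1 ∈ x.2 then (x.1 * gn Γ D i.1 i.2, x.2.erase i.1)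
  else (x.1 * (gn Γ D i.1 i.2)⁻¹, insert i.1 x.2)

theorem mv_invol (i : Σ v, (D v).L) : Function.Involutive (mv (Γ := Γ) i) := by
  rintro ⟨g, O⟩
  by_cases h : i.1 ∈ O
  · simp [mv, h, Finset.insert_erase h]
  · simp [mv, h, Finset.erase_insert h]

theorem mv_comm {i j : Σ v, (D v).L} (h : Γ.Adj i.1 j.1) (x : GraphProduct Γ A × Finset V) :
    mv i (mv j x) = mv j (mv i x) := by
  obtain ⟨g, O⟩ := x
  have hne := h.ne
  by_cases h1 : i.1 ∈ O <;> by_cases h2 : j.1 ∈ O <;>
    simp only [mv, h1, h2, hne, hne.symm, if_true, if_false, Finset.mem_erase, Finset.mem_insert,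
      ne_eq, not_false_eq_true, and_self, and_false, or_true, or_self, Prod.mk.injEq, mul_assoc,
      gn, ← map_inv, inc_comm h, true_and]
  · exact Finset.erase_right_comm
  · exact Finset.erase_insert_of_ne hne.symm
  · exact (Finset.erase_insert_of_ne hne).symm
  · exact Finset.insert_comm _ _ _

variable (D)

/-- The moves define an action of the Coxeter group. -/
noncomputable def ψ : (R Γ D).W →* Equiv.Perm (GraphProduct Γ A × Finset V) :=
  (R Γ D).lift (fun i => (mv_invol i).toPerm) (fun i => by ext1 x; exact mv_invol i x)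
    (fun i j h => by ext1 x; exact mv_comm h x)

variable {D}

/-- The state after reading `w`. -/
noncomputable def ρ (w : (R Γ D).W) : GraphProduct Γ A × Finset V := ψ D w⁻¹ (1, ∅)

theorem ρ_one : ρ (1 : (R Γ D).W) = (1, ∅) := by simp [ρ]

theorem ρ_mul (w u : (R Γ D).W) : ρ (w * u) = ψ D u⁻¹ (ρ w) := by
  rw [ρ, mul_inv_rev, map_mul, Equiv.Perm.mul_apply, ρ]

theorem ρ_s (w : (R Γ D).W) (i : Σ v, (D v).L) : ρ (w * (R Γ D).s i) = mv i (ρ w) := by
  rw [ρ_mul, (R Γ D).s_inv, ψ, RG.lift_s]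
  rfl

theorem ρ_c (g : GraphProduct Γ A) : ρ (c D g) = (g, ∅) := by
  induction g using ind (D := D) with
  | h1 => rw [c_one, ρ_one]
  | h2 g v j =>
    have key : mv ⟨v, π D g v j⟩ (mv ⟨v, π D g v (D v).o⟩ (g, ∅)) = (g * gn Γ D v j, ∅) := by
      obtain ⟨a, ha⟩ := π_range (D := D) g v
      simp [mv, ha, gn, (D v).h2 a j]
    rw [c_mul_gn, s, s, ρ_s, ρ_s, ← key, (mv_invol _).injective.eq_iff,
      (mv_invol _).injective.eq_iff]

theorem c_inj : Function.Injective (c D : GraphProduct Γ A → _) := fun g h e => by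
  have := ρ_c (D := D) g
  rw [e, ρ_c] at this
  exact (Prod.mk.inj this).1.symm

end Pool.Agent.Lib.MP_7eef47_al.GQ
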