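import Pool.Agent.Lib.MP_7eef47_al.GQ.Walls
import Pool.Agent.Lib.MP_7eef47_al.C.Undist

set_option autoImplicit false
set_option linter.unusedSectionVars false

namespace Pool.Agent.Lib.MP_7eef47_al.GQ

open Pool.Agent.Lib.MP_b03b3a_al Pool.Agent.Lib.MP_7eef47_al.U Classical
open Pool.Agent.Lib.MP_7eef47_al.GP (GraphProduct inc inc_comm)

variable {V : Type} [Finite V] {Γ : SimpleGraph V} {A : V → Type} [∀ v, Group (A v)]
  {D : ∀ v, VD (A v)} {H : Subgroup (GraphProduct Γ A)}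

variable (D) in
/-- Generators adapted to the walls of `H`. -/
def Nice (T : Set H) (u : H) : Prop := Free D H u ∨
  ∃ (g : GraphProduct Γ A) (v : V) (i j : (D v).L), Free D H g ∧
    (u : GraphProduct Γ A) = rot g v (df i j) ∧
    ∀ k l : (D v).L, ∃ t ∈ T, (t : GraphProduct Γ A) = rot g v (df k l)

variable (D) in
theorem exists_nice (hfg : H.FG) : ∃ T : Set H, T.Finite ∧ Subgroup.closure T = ⊤ ∧
    ∀ u ∈ T, Nice D T u := by
  have : Group.FG H := (Group.fg_iff_subgroup_fg H).2 hfg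
  obtain ⟨T₀, hg, hTf, hT⟩ := C.exists_finite_gen (mem_closure_good (D := D) (H := H))
  have key : ∀ u : H, ∃ E : Set H, u ∈ T₀ → E.Finite ∧ u ∈ E ∧ ∀ t ∈ E, Nice D E t := by
    intro u
    by_cases hu : u ∈ T₀
    · rcases hg hu with h | ⟨g, v, i, j, h1, h2, h3⟩
      · exact ⟨{u}, fun _ => ⟨Set.finite_singleton _, rfl, by rintro _ rfl; exact Or.inl h⟩⟩
      · refine ⟨Set.range fun b : (D v).L × (D v).L => ⟨rot g v (df b.1 b.2), h2 _⟩,
          fun _ => ⟨Set.finite_range _, ⟨(i, j), Subtype.ext h3.symm⟩, ?_⟩⟩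
        rintro _ ⟨b, rfl⟩
        exact Or.inr ⟨g, v, b.1, b.2, h1, rfl, fun k l => ⟨_, ⟨(k, l), rfl⟩, rfl⟩⟩
    · exact ⟨∅, fun h => absurd h hu⟩
  choose E hE using key
  refine ⟨⋃ u ∈ T₀, E u, hTf.biUnion fun u hu => (hE u hu).1, ?_, fun t ht => ?_⟩
  · rw [eq_top_iff, ← hT]
    exact Subgroup.closure_mono fun u hu => Set.mem_biUnion hu (hE u hu).2.1
  · obtain ⟨u, hu, ht⟩ := Set.mem_iUnion₂.1 ht
    rcases (hE u hu).2.2 t ht with h | ⟨g, v, i, j, h1, h2, h3⟩
    · exact Or.inl h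
    · refine Or.inr ⟨g, v, i, j, h1, h2, fun k l => ?_⟩
      obtain ⟨t', h4, h5⟩ := h3 k l
      exact ⟨t', Set.mem_biUnion hu h4, h5⟩

theorem nice_all {T : Set H} (hg : ∀ u ∈ T, Nice D T u) {u : H}
    (hu : u ∈ insert 1 (T ∪ T⁻¹)) : Nice D T u := by
  rcases hu with rfl | h | h
  · exact Or.inl fun _ _ => rfl
  · exact hg u h
  · rcases hg _ h with h' | ⟨g, v, i, j, h1, h2, h3⟩
    · refine Or.inl fun r hr => ?_
      have := h'.mul u.2 hr
      rw [Subgroup.coe_inv, mul_inv_cancel] at this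
      exact this.symm
    · refine Or.inr ⟨g, v, j, i, h1, ?_, h3⟩
      rw [← inv_inv (u : GraphProduct Γ A), ← Subgroup.coe_inv, h2]
      unfold rot df
      simp only [map_mul, map_inv]
      group

theorem merge {v : V} {b b' : A v} {i j k l : (D v).L} (h : (D v).pi b i = (D v).pi b' l) :
    ∃ k' l' : (D v).L, df k l * df i j = df k' l' := by
  rcases (D v).alt with h' | h'
  · obtain ⟨m, hm⟩ := h' (df k l * df i j)
    exact ⟨(D v).o, m, by rw [hm, df, VD.lam_o]; simp⟩
  · rw [h', h'] at h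
    obtain rfl : i = l := h
    exact ⟨k, j, by unfold df; group⟩

theorem N_step {x u : GraphProduct Γ A} {r : (R Γ D).W} (h : Nc x r ≠ Nc (x * u) r) :
    Nc 1 (actW x⁻¹ r) ≠ Nc u (actW x⁻¹ r) := fun e => h (by
  have := (N_act x 1 u _).2 e
  rwa [← actW_mul, mul_inv_cancel, actW_one, mul_one] at this)

theorem nice_cross {T : Set H} {x y : H} (hu : Nice D T (x⁻¹ * y)) {r : (R Γ D).W} (hr : HW H r)
    (h : Nc (x : GraphProduct Γ A) r ≠ Nc (y : GraphProduct Γ A) r) :
    ∃ (g : GraphProduct Γ A) (v : V) (i j : (D v).L) (b : A v),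
      (y : GraphProduct Γ A) = rot g v (df i j) * x ∧
      (∀ k l : (D v).L, ∃ t ∈ T, (x : GraphProduct Γ A) * t = rot g v (df k l) * x) ∧
      Nc (x : GraphProduct Γ A) r = Nc g r ∧
      Nc (y : GraphProduct Γ A) r = Nc (g * inc Γ A v (df i j)) r ∧
      (r = wl g v ((D v).pi b i) ∨ r = wl (g * inc Γ A v (df i j)) v ((D v).pi b j)) := by
  rcases hu with h' | ⟨g, v, i, j, f1, f2, f3⟩
  · have := h'.mul x.2 hr
    simp only [Subgroup.coe_mul, Subgroup.coe_inv, mul_inv_cancel_left] at this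
    exact absurd this h
  · simp only [Subgroup.coe_mul, Subgroup.coe_inv] at f2
    have e0 : (y : GraphProduct Γ A) = rot ((x : GraphProduct Γ A) * g) v (df i j) * x := by
      rw [rot_mul, ← f2]; group
    have e1 := f1.mul x.2 hr
    have e2 := f1.mul y.2 hr
    have e3 : (y : GraphProduct Γ A) * g = (x : GraphProduct Γ A) * g * inc Γ A v (df i j) := by
      rw [e0]; unfold rot; group
    rw [e3] at e2
    obtain ⟨b, hb⟩ := edge (e1 ▸ e2 ▸ h)
    refine ⟨_, v, i, j, b, e0, fun k l => ?_, e1, e2, hb⟩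
    obtain ⟨t, ht, e⟩ := f3 k l
    exact ⟨t, ht, by rw [e, rot_mul]; group⟩

/-- A geodesic of `H` crosses every wall only during a bounded time. -/
theorem window (hm : AlmostMalnormal H) {T : Set H} (hf : T.Finite)
    (hT : Subgroup.closure T = ⊤) (hg : ∀ u ∈ T, Nice D T u) :
    ∃ n₀ : ℕ, ∀ (p : ℕ → H) (n : ℕ), (∀ k, (p k)⁻¹ * p (k + 1) ∈ insert 1 (T ∪ T⁻¹)) →
      (∀ i j, i ≤ j → j ≤ n → (SimpleGraph.mulCayley T).dist (p i) (p j) = j - i) →
      ∀ (r : (R Γ D).W) a b, a ≤ b → b < n →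
        Nc (p a : GraphProduct Γ A) r ≠ Nc (p (a + 1) : GraphProduct Γ A) r →
        Nc (p b : GraphProduct Γ A) r ≠ Nc (p (b + 1) : GraphProduct Γ A) r → b ≤ a + n₀ := by
  have hf' : (insert 1 (T ∪ T⁻¹)).Finite := (hf.union hf.inv).insert 1
  have hΦ : (⋃ u ∈ insert 1 (T ∪ T⁻¹),
      {r : (R Γ D).W | Nc 1 r ≠ Nc ((u : H) : GraphProduct Γ A) r}).Finite :=
    hf'.biUnion fun u _ => sep_finite _ _ _
  have hU : ∀ r r' : (R Γ D).W, (∃ g v t, r = wl g v t) → ¬ HW H r →
      {u : H | actW (u : GraphProduct Γ A) r' = r}.Finite := by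
    rintro _ r' ⟨g, v, t, rfl⟩ hr
    obtain ⟨a, ha⟩ : ∃ a, rot g v a ∉ H := not_forall.1 fun h => hr ⟨g, v, t, rfl, h⟩
    rcases Set.eq_empty_or_nonempty {u : H | actW (u : GraphProduct Γ A) r' = wl g v t} with
      e | ⟨w, hw⟩
    · rw [e]; exact Set.finite_empty
    refine ((hm _ ha).preimage (f := fun u : H => ((u * w⁻¹ : H) : GraphProduct Γ A))
      fun a _ b _ e => by simpa using e).subset fun u hu => ⟨(u * w⁻¹).2, ?_⟩
    have hu' : actW (u : GraphProduct Γ A) r' = wl g v t := hu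
    have hw' : actW (w : GraphProduct Γ A) r' = wl g v t := hw
    have e1 : actW ((u * w⁻¹ : H) : GraphProduct Γ A) (wl g v t) = wl g v t := by
      rw [← hw', ← actW_mul, hw', ← hu']
      simp
    rw [actW_wl] at e1
    have e2 := (wl_stab e1).2.2 a
    rw [rot_mul, mul_inv_eq_iff_eq_mul] at e2
    show (rot g v a)⁻¹ * ((u * w⁻¹ : H) : GraphProduct Γ A) * rot g v a ∈ H
    rw [mul_assoc, e2, inv_mul_cancel_left]
    exact (u * w⁻¹).2
  obtain ⟨n₀, hn₀⟩ := Tr.bdd (((hΦ.inter_of_left {r | ¬ HW H r}).prod hΦ).biUnion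
    fun x hx => hU x.1 x.2 (by
      obtain ⟨u, -, hu⟩ := Set.mem_iUnion₂.1 hx.1.1
      exact is_wl hu) hx.1.2) fun u => (SimpleGraph.mulCayley T).dist 1 u
  refine ⟨n₀, fun p n hs hd r a b hab hb ha' hb' => ?_⟩
  have st : ∀ k, (p (k + 1) : GraphProduct Γ A) = p k * ((p k)⁻¹ * p (k + 1) : H) := fun k => by
    simp
  by_cases hr : HW H r
  · rcases hab.eq_or_lt with e | e
    · omega
    exfalso
    have ex : ∃ k, a < k ∧ Nc (p k : GraphProduct Γ A) r ≠ Nc (p (k + 1) : GraphProduct Γ A) r :=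
      ⟨b, e, hb'⟩
    obtain ⟨e', hb''⟩ := Nat.find_spec ex
    have hle := Nat.find_min' ex ⟨e, hb'⟩
    have same : Nc (p (a + 1) : GraphProduct Γ A) r =
        Nc (p (Nat.find ex) : GraphProduct Γ A) r := by
      by_contra hne
      obtain ⟨k, k1, k2, k3⟩ := C.exists_switch (fun k => Nc (p k : GraphProduct Γ A) r) e' hne
      exact Nat.find_min ex k2 ⟨k1, k3⟩
    generalize Nat.find ex = b' at e' hb'' hle same
    obtain ⟨g, v, i, j, β, e1, -, s1, s2, w1⟩ := nice_cross (nice_all hg (hs a)) hr ha'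
    obtain ⟨g', v', k, l, β', e3, e5, s3, s4, w2⟩ := nice_cross (nice_all hg (hs b')) hr hb''
    obtain rfl : v = v' := by
      rcases w1 with w1 | w1 <;> rcases w2 with w2 | w2 <;> exact wl_type (w1.symm.trans w2)
    have key : ∃ k' l' : (D v).L, rot g v (df i j) * rot g' v (df k l) = rot g' v (df k' l') := by
      have rm : ∀ x y, rot g' v x * rot g' v y = rot g' v (x * y) := fun x y => by
        unfold rot; rw [map_mul]; group
      rcases w1 with w1 | w1 <;> rcases w2 with w2 | w2 <;>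
        obtain ⟨q1, q2, q3⟩ := wl_stab (w1.symm.trans w2)
      · rw [← w1, ← s1, ← s3, ← same] at q2
        exact absurd q2.symm ha'
      · obtain ⟨k', l', hm'⟩ := merge (j := j) (k := k) q1
        exact ⟨k', l', by rw [q3, rot_inc, rm, inv_mul_cancel_right, hm']⟩
      · obtain ⟨k', l', hm'⟩ := merge (j := l) (k := i) q1.symm
        have := q3 (df i j)
        rw [rot_inc, mul_inv_cancel_right] at this
        exact ⟨k', l', by rw [this, rm, hm']⟩
      · rw [← w1, ← s2, ← s4, same] at q2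
        exact absurd q2.symm hb''
    obtain ⟨k', l', e6⟩ := key
    obtain ⟨t, ht, e7⟩ := e5 k' l'
    have e8 : ∃ t' : H, (SimpleGraph.mulCayley T).dist (p a * (p (a + 1))⁻¹ * p b')
        (p a * (p (a + 1))⁻¹ * p b' * t') ≤ 1 ∧ p (b' + 1) = p a * (p (a + 1))⁻¹ * p b' * t' := by
      refine ⟨t, ?_, Subtype.ext ?_⟩
      · by_cases h : p a * (p (a + 1))⁻¹ * p b' = p a * (p (a + 1))⁻¹ * p b' * t
        · rw [← h]; simp
        · exact (SimpleGraph.dist_eq_one_iff_adj.2
            ((SimpleGraph.mulCayley_adj' T _ _).2 ⟨h, t, ht, Or.inl rfl⟩)).le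
      · simp only [Subgroup.coe_mul, Subgroup.coe_inv]
        rw [mul_assoc, e7, ← e6, e3, e1]
        group
    obtain ⟨t', a4, e9⟩ := e8
    rw [← e9] at a4
    have a1 := hd a (b' + 1) (by omega) (by omega)
    have a2 := hd (a + 1) b' (by omega) (by omega)
    rw [← Tr.dist_mul hT (p a * (p (a + 1))⁻¹), inv_mul_cancel_right] at a2
    have a3 : (SimpleGraph.mulCayley T).dist (p a) (p (b' + 1)) ≤ _ + _ :=
      (Tr.conn hT).dist_triangle (v := p a * (p (a + 1))⁻¹ * p b')
    omega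
  · have mem : ∀ k, Nc (p k : GraphProduct Γ A) r ≠ Nc (p (k + 1) : GraphProduct Γ A) r →
        actW (p k : GraphProduct Γ A)⁻¹ r ∈ ⋃ u ∈ insert 1 (T ∪ T⁻¹),
          {r : (R Γ D).W | Nc 1 r ≠ Nc ((u : H) : GraphProduct Γ A) r} := fun k hk =>
      Set.mem_biUnion (hs k) (N_step (st k ▸ hk))
    have := hn₀ ((p a)⁻¹ * p b) (Set.mem_biUnion
      (x := (actW (p a : GraphProduct Γ A)⁻¹ r, actW (p b : GraphProduct Γ A)⁻¹ r))
      ⟨⟨mem a ha', fun h => hr (by
      have := HW.act (r := actW (p a : GraphProduct Γ A)⁻¹ r) h (p a).2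
      rwa [← actW_mul, mul_inv_cancel, actW_one] at this)⟩, mem b hb'⟩ (by
        show actW _ (actW _ r) = _
        rw [← actW_mul]
        simp))
    rw [← Tr.dist_mul hT (p a), mul_one, mul_inv_cancel_left, hd a b hab hb.le] at this
    omega

theorem len_add_le (x y z : (R Γ D).W) : d (R Γ D) x y + d (R Γ D) y z ≤
    d (R Γ D) x z + 2 * (sep (R Γ D) x y ∩ sep (R Γ D) y z).card := by
  rw [← card_sep, ← card_sep, ← card_sep]
  have h1 := Finset.card_union_add_card_inter (sep (R Γ D) x y) (sep (R Γ D) y z)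
  have h2 : sep (R Γ D) x y ∪ sep (R Γ D) y z ⊆
      sep (R Γ D) x z ∪ (sep (R Γ D) x y ∩ sep (R Γ D) y z) := by
    intro r
    simp only [Finset.mem_union, Finset.mem_inter, mem_sep]
    cases (R Γ D).N x r <;> cases (R Γ D).N y r <;> cases (R Γ D).N z r <;> simp
  have h3 := (Finset.card_le_card h2).trans (Finset.card_union_le _ _)
  omega

variable (D) in
theorem lip_c {G : Type} [Group G] {S : Set G} (hf : S.Finite) (hS : Subgroup.closure S = ⊤)
    (f : G →* GraphProduct Γ A) : ∃ B, ∀ x y,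
      d (R Γ D) (c D (f x)) (c D (f y)) ≤ B * (SimpleGraph.mulCayley S).dist x y := by
  obtain ⟨B, hB⟩ := Tr.bdd hf fun s => d (R Γ D) (c D 1) (c D (f s))
  refine ⟨B, Tr.lip hS (d (R Γ D)) (d_self _) (d_comm _) (d_tri _) (fun x => c D (f x)) B
    fun x s hs => ?_⟩
  have := hB s hs
  rwa [← d_c_mul (f x), mul_one, ← map_mul] at this

include D in
/-- Finitely generated almost malnormal subgroups of these graph products are undistorted. -/
theorem undistorted {S : Set (GraphProduct Γ A)} (hf : S.Finite) (hS : Subgroup.closure S = ⊤)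
    (hfg : H.FG) (hm : AlmostMalnormal H) : Undistorted S H := by
  obtain ⟨T, hTf, hT, hg⟩ := exists_nice D hfg
  obtain ⟨n₀, hn₀⟩ := window hm hTf hT hg
  obtain ⟨K, hK⟩ := lip_c D hTf hT H.subtype
  obtain ⟨B, hB⟩ := lip_c D hf hS (MonoidHom.id _)
  obtain ⟨L, hL⟩ := Tr.bdd ((ball_finite (R Γ D) (2 * (K * n₀))).preimage
    (f := fun u : H => c D (u : GraphProduct Γ A)) (c_inj.comp Subtype.val_injective).injOn)
    fun u => (SimpleGraph.mulCayley T).dist 1 u
  have main : ∀ x y : H, (SimpleGraph.mulCayley T).dist x y ≤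
      (L + 1) * (d (R Γ D) (c D (x : GraphProduct Γ A)) (c D (y : GraphProduct Γ A)) +
        2 * (K * n₀) + 1) := by
    intro x y
    obtain ⟨p, p0, p1, ps, pd⟩ := C.geod_eq hT x y
    generalize (SimpleGraph.mulCayley T).dist x y = n at p1 pd
    set q : ℕ → (R Γ D).W := fun k => c D (p k : GraphProduct Γ A) with hq
    have add : ∀ s t, s ≤ t → t ≤ n → d (R Γ D) (q 0) (q s) + d (R Γ D) (q s) (q t) ≤
        d (R Γ D) (q 0) (q t) + 2 * (K * n₀) := by
      intro s t hst ht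
      have a1 := len_add_le (q 0) (q s) (q t)
      have a2 : sep (R Γ D) (q 0) (q s) ∩ sep (R Γ D) (q s) (q t) ⊆
          sep (R Γ D) (q (s - n₀)) (q s) := by
        intro r hr
        simp only [Finset.mem_inter, mem_sep] at hr ⊢
        obtain ⟨b, b1, b2, b3⟩ := C.exists_switch (fun k => (R Γ D).N (q k) r) hst hr.2
        intro e
        obtain ⟨a, -, a2, a3⟩ := C.exists_switch (fun k => (R Γ D).N (q k) r)
          (Nat.zero_le (s - n₀)) (fun e' => hr.1 (e'.trans e))
        have := hn₀ p n ps pd r a b (by omega) (by omega) a3 b3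
        omega
      have a3 := Finset.card_le_card a2
      have a4 : d (R Γ D) (q (s - n₀)) (q s) ≤ _ := hK (p (s - n₀)) (p s)
      rw [card_sep] at a3
      rw [pd _ _ (by omega) (by omega)] at a4
      have a5 : K * (s - (s - n₀)) ≤ K * n₀ := Nat.mul_le_mul_left K (by omega)
      omega
    have grow : ∀ a, (L + 1) * a ≤ n → a ≤ d (R Γ D) (q 0) (q ((L + 1) * a)) := by
      intro a
      induction a with
      | zero => simp
      | succ a ih =>
        intro h
        rw [mul_add, mul_one] at h ⊢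
        have a1 := ih (by omega)
        have a2 := add ((L + 1) * a) ((L + 1) * a + (L + 1)) (by omega) h
        have a3 : ¬ d (R Γ D) (q ((L + 1) * a)) (q ((L + 1) * a + (L + 1))) ≤
            2 * (K * n₀) := fun h' => by
          have := hL ((p ((L + 1) * a))⁻¹ * p ((L + 1) * a + (L + 1))) (by
            show d (R Γ D) 1 _ ≤ _
            rw [← c_one, ← d_c_mul (p ((L + 1) * a) : GraphProduct Γ A)]
            simpa using h')
          rw [← Tr.dist_mul hT (p ((L + 1) * a)), mul_one, mul_inv_cancel_left,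
            pd _ _ (by omega) h] at this
          omega
        omega
    have b1 := Nat.mul_div_le n (L + 1)
    have b2 := grow _ b1
    have b3 := add _ n b1 le_rfl
    have b4 := Nat.lt_mul_div_succ n (show 0 < L + 1 by omega)
    have b5 : d (R Γ D) (q 0) (q n) =
        d (R Γ D) (c D (x : GraphProduct Γ A)) (c D (y : GraphProduct Γ A)) := by
      simp only [hq, p0, p1]
    exact b4.le.trans (Nat.mul_le_mul_left _ (by omega))
  refine ⟨T, ((L + 1) * (B + 2 * (K * n₀) + 1) : ℕ), hTf, hT, fun x y => ?_⟩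
  have c1 := main x y
  have c2 := hB x y
  simp only [MonoidHom.id_apply] at c2
  unfold wordDist
  generalize (SimpleGraph.mulCayley S).dist (x : GraphProduct Γ A) y = E at c2 ⊢
  have c3 : (L + 1) * (d (R Γ D) (c D (x : GraphProduct Γ A)) (c D (y : GraphProduct Γ A)) +
      2 * (K * n₀) + 1) ≤ (L + 1) * ((B + 2 * (K * n₀) + 1) * E + (B + 2 * (K * n₀) + 1)) :=
    Nat.mul_le_mul_left _ (by nlinarith [Nat.zero_le ((2 * (K * n₀) + 1) * E)])
  rw [mul_add (L + 1) (_ * E), ← mul_assoc (L + 1)] at c3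
  exact_mod_cast c1.trans c3

end Pool.Agent.Lib.MP_7eef47_al.GQ
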