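import Pool.Agent.Lib.MP_7eef47_al.GQ.Und
import Pool.Agent.Lib.MP_7eef47_al.U.Exc

set_option autoImplicit false
set_option linter.unusedSectionVars false

namespace Pool.Agent.Lib.MP_7eef47_al.GQ

open Pool.Agent.Lib.MP_b03b3a_al Pool.Agent.Lib.MP_7eef47_al.U Classical
open Pool.Agent.Lib.MP_7eef47_al.GP (GraphProduct)

theorem dist_map_le {G K : Type} [Group G] [Group K] {S : Set G} (hS : Subgroup.closure S = ⊤)
    {T : Set K} (hT : Subgroup.closure T = ⊤) (f : G →* K) (hf : ∀ s ∈ S, f s ∈ T) (x y : G) :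
    (SimpleGraph.mulCayley T).dist (f x) (f y) ≤ (SimpleGraph.mulCayley S).dist x y := by
  have := Tr.lip hS (SimpleGraph.mulCayley T).dist (fun _ => SimpleGraph.dist_self)
    (fun _ _ => SimpleGraph.dist_comm) (fun _ _ _ => (Tr.conn hT).dist_triangle) f 1
    (fun x s hs => by
      by_cases h : f x = f (x * s)
      · rw [← h]; simp
      · exact (SimpleGraph.dist_eq_one_iff_adj.2 ((SimpleGraph.mulCayley_adj' T _ _).2
          ⟨h, f s, hf s hs, Or.inl (map_mul f x s).symm⟩)).le) x y
  simpa using this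

theorem closure_image_top {G K : Type} [Group G] [Group K] {S : Set G}
    (hS : Subgroup.closure S = ⊤) (e : G ≃* K) : Subgroup.closure (e '' S) = ⊤ := by
  have := MonoidHom.map_closure e.toMonoidHom S
  rw [hS, Subgroup.map_top_of_surjective _ e.surjective] at this
  exact this.symm

theorem undistorted_equiv {G K : Type} [Group G] [Group K] (e : G ≃* K) {S : Set G}
    (hS : Subgroup.closure S = ⊤) {H : Subgroup G}
    (h : Undistorted (e '' S) (H.map e.toMonoidHom)) : Undistorted S H := by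
  obtain ⟨T, L, hTf, hT, hL⟩ := h
  obtain ⟨N, hN⟩ := exists_nat_ge L
  let j : H ≃* H.map e.toMonoidHom := e.subgroupMap H
  refine ⟨j.symm '' T, N, hTf.image _, closure_image_top hT j.symm, fun x y => ?_⟩
  have a1 : (SimpleGraph.mulCayley (j.symm '' T)).dist (j.symm (j x)) (j.symm (j y)) ≤ _ :=
    dist_map_le hT (closure_image_top hT j.symm) j.symm.toMonoidHom
      (fun s hs => ⟨s, hs, rfl⟩) (j x) (j y)
  have a2 : (SimpleGraph.mulCayley (e '' S)).dist (e x) (e y) ≤ _ :=
    dist_map_le hS (closure_image_top hS e) e.toMonoidHom (fun s hs => ⟨s, hs, rfl⟩) x y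
  have a3 : wordDist T (j x) (j y) ≤ L * wordDist (e '' S) (e x) (e y) + L := hL (j x) (j y)
  rw [j.symm_apply_apply, j.symm_apply_apply] at a1
  unfold wordDist at a3 ⊢
  have b1 : ((SimpleGraph.mulCayley (j.symm '' T)).dist x y : ℝ) ≤
      (SimpleGraph.mulCayley T).dist (j x) (j y) := by exact_mod_cast a1
  have b2 : ((SimpleGraph.mulCayley (e '' S)).dist (e x) (e y) : ℝ) ≤
      (SimpleGraph.mulCayley S).dist (x : G) y := by exact_mod_cast a2
  have b3 : L * ((SimpleGraph.mulCayley (e '' S)).dist (e x) (e y) : ℝ) ≤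
      N * (SimpleGraph.mulCayley S).dist (x : G) y :=
    mul_le_mul hN b2 (Nat.cast_nonneg _) (Nat.cast_nonneg _)
  linarith

theorem main {V : Type} [Finite V] {Γ : SimpleGraph V} {A : V → Type} [∀ v, Group (A v)]
    (D : ∀ v, VD (A v)) {G : Type} [Group G] (G₁ : Subgroup G) [G₁.FiniteIndex]
    (e : G₁ ≃* GraphProduct Γ A) (S : Set G) (hS : S.Finite) (hgen : Subgroup.closure S = ⊤)
    (H : Subgroup G) (hfg : H.FG) (hm : AlmostMalnormal H) : StronglyQuasiconvex S H := by
  have hG : Group.FG G := Group.fg_iff.2 ⟨S, hgen, hS⟩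
  have : Group.FG H := (Group.fg_iff_subgroup_fg H).2 hfg
  have fg : Group.FG (H.subgroupOf G₁) := Group.fg_of_surjective
    (f := ((H.subtype.comp (G₁.subgroupOf H).subtype).codRestrict G₁ fun x => x.2).codRestrict
      (H.subgroupOf G₁) fun x => x.1.2) fun x => ⟨⟨⟨x.1.1, x.2⟩, x.1.2⟩, rfl⟩
  obtain ⟨S₁, hS₁, hS₁f⟩ := Group.fg_iff.1 (inferInstance : Group.FG G₁)
  have hU : Undistorted S H := by
    refine C.undistorted_of_finiteIndex G₁ hS₁ hS hgen hfg (undistorted_equiv e hS₁
      (undistorted (D := D) (hS₁f.image _) (closure_image_top hS₁ e) ?_ ?_))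
    · let j : H.subgroupOf G₁ ≃* (H.subgroupOf G₁).map e.toMonoidHom := e.subgroupMap _
      exact (Group.fg_iff_subgroup_fg _).1
        (Group.fg_of_surjective (f := j.toMonoidHom) j.surjective)
    · intro g hg
      obtain ⟨g, rfl⟩ := e.surjective g
      have hg' : (g : G) ∉ H := fun h => hg ⟨g, h, rfl⟩
      refine (((hm g hg').preimage (f := fun k : G₁ => (k : G))
        Subtype.val_injective.injOn).image e).subset ?_
      rintro _ ⟨⟨a, ha, rfl⟩, b, hb, hab⟩
      refine ⟨a, ⟨ha, ?_⟩, rfl⟩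
      have : b = g⁻¹ * a * g := e.injective (by simpa using hab)
      rw [this] at hb
      exact hb
  let K : Subgroup G₁ := ((π D : GraphProduct Γ A →* _).comp e.toMonoidHom).ker
  have : K.FiniteIndex := Subgroup.finiteIndex_ker _
  have : (K.map G₁.subtype).FiniteIndex := ⟨by
    rw [Subgroup.index_map_subtype]
    exact mul_ne_zero Subgroup.FiniteIndex.index_ne_zero Subgroup.FiniteIndex.index_ne_zero⟩
  let j : K ≃* K.map G₁.subtype := K.equivMapOfInjective _ G₁.subtype_injective
  let f : K →* (π D : GraphProduct Γ A →* _).ker :=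
    (e.toMonoidHom.comp K.subtype).codRestrict _ fun k => k.2
  have fi : Function.Injective f := fun a b h =>
    Subtype.ext (e.injective (congrArg Subtype.val h))
  have fs : Function.Surjective f := fun k =>
    ⟨⟨e.symm k, by
      show π D (e (e.symm k)) = 1
      rw [e.apply_symm_apply]; exact k.2⟩, Subtype.ext (e.apply_symm_apply _)⟩
  refine transfer (R Γ D) morse G (K.map G₁.subtype) ((ι.comp f).comp j.symm.toMonoidHom)
    ((ι_inj.comp fi).comp j.symm.injective) ?_ S hS hgen H hU (C.centralizerFinite hm)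
  have : ((ι.comp f).comp j.symm.toMonoidHom).range = (ι (Γ := Γ) (D := D)).range := by
    ext w
    constructor
    · rintro ⟨k, rfl⟩
      exact ⟨_, rfl⟩
    · rintro ⟨k, rfl⟩
      obtain ⟨k, rfl⟩ := fs k
      exact ⟨j k, by simp⟩
  rw [this]
  exact ι_cc

end Pool.Agent.Lib.MP_7eef47_al.GQ
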