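import Pool.Agent.Lib.MP_7eef47_al.GQ.Cvx

set_option autoImplicit false
set_option linter.unusedSectionVars false

namespace Pool.Agent.Lib.MP_7eef47_al.GQ

open Pool.Agent.Lib.MP_b03b3a_al Pool.Agent.Lib.MP_7eef47_al.U Classical
open Pool.Agent.Lib.MP_7eef47_al.GP (GraphProduct inc inc_comm)

variable {V : Type} [Finite V] {Γ : SimpleGraph V} {A : V → Type} [∀ v, Group (A v)]
  {D : ∀ v, VD (A v)}

/-- The side function on the graph product. -/
noncomputable def Nc (g : GraphProduct Γ A) (r : (R Γ D).W) : Bool := (R Γ D).N (c D g) r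

/-- The action on walls. -/
noncomputable def actW (g : GraphProduct Γ A) (r : (R Γ D).W) : (R Γ D).W :=
  c D g * α Γ D (π D g) r * (c D g)⁻¹

/-- The wall with letter `t` next to `g`. -/
noncomputable def wl (g : GraphProduct Γ A) (v : V) (t : (D v).L) : (R Γ D).W :=
  c D g * s Γ D v t * (c D g)⁻¹

/-- A rotation. -/
def rot (g : GraphProduct Γ A) (v : V) (a : A v) : GraphProduct Γ A := g * inc Γ A v a * g⁻¹

/-- A step inside a star. -/
def df {v : V} (i j : (D v).L) : A v := ((D v).lam i)⁻¹ * (D v).lam j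

theorem mul_df (x : GraphProduct Γ A) {v : V} (i j : (D v).L) :
    x * inc Γ A v (df i j) = x * (gn Γ D v i)⁻¹ * gn Γ D v j := by
  rw [df, map_mul, map_inv, mul_assoc]
  rfl

theorem actW_mul (g h : GraphProduct Γ A) (r : (R Γ D).W) :
    actW (g * h) r = actW g (actW h r) := by
  simp only [actW, c_mul, map_mul, map_inv, MulAut.mul_apply]
  group

theorem actW_one (r : (R Γ D).W) : actW (1 : GraphProduct Γ A) r = r := by
  simp [actW, c_one]

theorem actW_wl (g x : GraphProduct Γ A) (v : V) (t : (D v).L) :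
    actW g (wl x v t) = wl (g * x) v (π D g v t) := by
  simp only [actW, wl, c_mul, map_mul, map_inv, α_s]
  group

theorem N_act (g x y : GraphProduct Γ A) (r : (R Γ D).W) :
    Nc (g * x) (actW g r) = Nc (g * y) (actW g r) ↔ Nc x r = Nc y r := by
  simp only [Nc, actW, c_mul]
  rw [N_conj, N_α, N_α]

theorem edge {x : GraphProduct Γ A} {v : V} {i j : (D v).L} {r : (R Γ D).W}
    (h : Nc x r ≠ Nc (x * inc Γ A v (df i j)) r) : ∃ b,
      r = wl x v ((D v).pi b i) ∨ r = wl (x * inc Γ A v (df i j)) v ((D v).pi b j) := by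
  obtain ⟨b, hb⟩ := π_range (D := D) (x * (gn Γ D v i)⁻¹) v
  refine ⟨b, ?_⟩
  have e0 : c D (x * inc Γ A v (df i j)) =
      c D x * s Γ D v ((D v).pi b i) * s Γ D v ((D v).pi b j) := by
    rw [mul_df, c_leaf _ v i j, inv_mul_cancel_right, hb]
  by_contra hn
  rw [not_or] at hn
  apply h
  unfold Nc
  rw [e0, s, s, N_step_ne, N_step_ne _ _ _ hn.1]
  intro e
  apply hn.2
  rw [e, wl, e0, mul_assoc _ (s Γ D v ((D v).pi b j)) (s Γ D v ((D v).pi b j)), s_s,
    mul_inv_rev _ (s Γ D v _), s_inv, mul_one, ← mul_assoc]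
  rfl

theorem is_wl {g : GraphProduct Γ A} {r : (R Γ D).W} (h : Nc 1 r ≠ Nc g r) :
    ∃ x v t, r = wl x v t := by
  by_contra hn
  apply h
  clear h
  induction g using ind (D := D) with
  | h1 => rfl
  | h2 g v j =>
    have : Nc g r = Nc (g * gn Γ D v j) r := by
      by_contra h
      have e : g * gn Γ D v j = g * inc Γ A v (df (D v).o j) := by rw [mul_df, gn_o]; simp
      rw [e] at h
      obtain ⟨b, h' | h'⟩ := edge h
      exacts [hn ⟨_, _, _, h'⟩, hn ⟨_, _, _, h'⟩]
    rw [this]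

theorem wl_type {g g' : GraphProduct Γ A} {v v' : V} {t : (D v).L} {t' : (D v').L}
    (h : wl g v t = wl g' v' t') : v = v' := congrArg Sigma.fst ((R Γ D).conj_inj h)

theorem par_lk {i : Σ v, (D v).L} {y w : (R Γ D).W}
    (h : w * (R Γ D).s i * w⁻¹ = y * (R Γ D).s i * y⁻¹)
    (hN : (R Γ D).N w (y * (R Γ D).s i * y⁻¹) = (R Γ D).N y (y * (R Γ D).s i * y⁻¹)) :
    y⁻¹ * w ∈ Par (R Γ D) {k | Γ.Adj i.1 k.1} :=
  (mem_par_iff (R Γ D)).2 fun r hr => by
    obtain ⟨j, hj⟩ := ty_of_sep _ hr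
    have hne : r ≠ y * (R Γ D).s i * y⁻¹ := by rintro rfl; exact hr hN.symm
    have e1 := N_step_eq (R Γ D) y i
    have e2 := N_step_eq (R Γ D) w i
    have e3 := N_step_ne (R Γ D) y i hne
    have e4 := N_step_ne (R Γ D) w i (r := r) (by rw [h]; exact hne)
    rw [h] at e2
    exact ⟨j, cross_adj (R Γ D) (c := y) (a := y * (R Γ D).s i) (b := w)
      (e := w * (R Γ D).s i) (r := y * (R Γ D).s i * y⁻¹) (r' := r) (i := i) hN
      (by rw [e1, e2, hN]) (by rw [e1]; simp) e3 e4 hr ⟨y, rfl⟩ hj, hj⟩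

theorem par_act {v : V} {w : (R Γ D).W} (h : w ∈ Par (R Γ D) {i | Γ.Adj v i.1}) :
    ∀ x, (v ∈ (ψ D w x).2 ↔ v ∈ x.2) ∧
      ∃ k, (∀ a, Commute k (inc Γ A v a)) ∧ (ψ D w x).1 = x.1 * k := by
  induction h using Subgroup.closure_induction with
  | mem w hw =>
    obtain ⟨i, hi, rfl⟩ := hw
    intro x
    have e : ψ D ((R Γ D).s i) x = mv i x := by rw [ψ, RG.lift_s]; rfl
    have adj : Γ.Adj v i.1 := hi
    rw [e]
    refine ⟨mem_mv_ne adj.ne, ?_⟩
    unfold mv
    split_ifs
    · exact ⟨_, fun a => (inc_comm adj a _).symm, rfl⟩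
    · exact ⟨_, fun a => Commute.inv_left (inc_comm adj a _).symm, rfl⟩
  | one => intro x; exact ⟨by simp, 1, fun a => Commute.one_left _, by simp⟩
  | mul a b _ _ ha hb =>
    intro x
    obtain ⟨a1, k, a2, a3⟩ := ha (ψ D b x)
    obtain ⟨b1, l, b2, b3⟩ := hb x
    rw [map_mul, Equiv.Perm.mul_apply]
    exact ⟨a1.trans b1, l * k, fun a => (b2 a).mul_left (a2 a), by rw [a3, b3, mul_assoc]⟩
  | inv a _ ha =>
    intro x
    obtain ⟨a1, k, a2, a3⟩ := ha (ψ D a⁻¹ x)
    rw [← Equiv.Perm.mul_apply, ← map_mul, mul_inv_cancel, map_one, Equiv.Perm.one_apply] at a1 a3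
    exact ⟨a1.symm, k⁻¹, fun a => (a2 a).inv_left, by rw [a3, mul_inv_cancel_right]⟩

theorem wl_stab {g g' : GraphProduct Γ A} {v : V} {t t' : (D v).L} (h : wl g v t = wl g' v t') :
    t = t' ∧ Nc g' (wl g v t) = Nc g (wl g v t) ∧ ∀ a, rot g v a = rot g' v a := by
  obtain rfl : t = t' := by simpa using (R Γ D).conj_inj h
  by_cases hN : Nc g' (wl g v t) = Nc g (wl g v t)
  · refine ⟨rfl, hN, fun a => ?_⟩
    obtain ⟨-, l, l1, l2⟩ := par_act ((Par _ _).inv_mem (par_lk (i := ⟨v, t⟩) h.symm hN))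
      (ρ (c D g))
    rw [← ρ_mul, mul_inv_cancel_left, ρ_c, ρ_c] at l2
    obtain rfl : g' = g * l := l2
    unfold rot
    rw [mul_assoc g l, (l1 a).eq]
    group
  · exfalso
    have e2 := N_step_eq (R Γ D) (c D g') ⟨v, t⟩
    have h' : c D g' * (R Γ D).s ⟨v, t⟩ * (c D g')⁻¹ = c D g * (R Γ D).s ⟨v, t⟩ * (c D g)⁻¹ :=
      h.symm
    rw [h'] at e2
    have hp := par_lk (i := ⟨v, t⟩) (y := c D g) (w := c D g' * (R Γ D).s ⟨v, t⟩)
      (by rw [mul_assoc (c D g'), RG.s_s, mul_one, mul_inv_rev, RG.s_inv, ← mul_assoc, h'])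
      (by
        refine e2.trans ?_
        revert hN
        unfold Nc wl s
        cases (R Γ D).N (c D g') _ <;> cases (R Γ D).N (c D g) _ <;> simp)
    have := (par_act ((Par _ _).inv_mem hp) (ρ (c D g))).1
    rw [← ρ_mul, mul_inv_cancel_left, ρ_s, ρ_c, ρ_c, mem_mv_self (i := ⟨v, t⟩)] at this
    simp at this

theorem rot_mul (h g : GraphProduct Γ A) (v : V) (a : A v) :
    rot (h * g) v a = h * rot g v a * h⁻¹ := by
  unfold rot; group

theorem rot_inc (g : GraphProduct Γ A) (v : V) (a b : A v) :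
    rot (g * inc Γ A v a) v b = rot g v (a * b * a⁻¹) := by
  unfold rot
  simp only [map_mul, map_inv]
  group

variable (H : Subgroup (GraphProduct Γ A))

/-- Walls whose rotations lie in `H`. -/
def HW (r : (R Γ D).W) : Prop := ∃ g v t, r = wl g v t ∧ ∀ a, rot g v a ∈ H

variable (D) in
/-- No such wall separates `x` from the identity. -/
def Free (x : GraphProduct Γ A) : Prop := ∀ r : (R Γ D).W, HW H r → Nc 1 r = Nc x r

variable {H}

theorem HW.act {r : (R Γ D).W} (hr : HW H r) {h : GraphProduct Γ A} (hh : h ∈ H) :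
    HW H (actW h r) := by
  obtain ⟨g, v, t, rfl, hg⟩ := hr
  exact ⟨h * g, v, _, actW_wl _ _ _ _, fun a => by
    rw [rot_mul]; exact mul_mem (mul_mem hh (hg a)) (inv_mem hh)⟩

theorem Free.mul {x h : GraphProduct Γ A} (hx : Free D H x) (hh : h ∈ H) {r : (R Γ D).W}
    (hr : HW H r) : Nc h r = Nc (h * x) r := by
  have := (N_act h 1 x _).2 (hx _ (hr.act (inv_mem hh)))
  rwa [← actW_mul, mul_inv_cancel, actW_one, mul_one] at this

theorem HW.rot_mem {x : GraphProduct Γ A} {v : V} {t : (D v).L} (hr : HW H (wl x v t))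
    (b : A v) : rot x v b ∈ H := by
  obtain ⟨g, v', t', e, hg⟩ := hr
  obtain rfl := wl_type e
  rw [(wl_stab e).2.2]
  exact hg b

theorem mem_closure_good (u : H) : u ∈ Subgroup.closure {u : H | Free D H u ∨
    ∃ (g : GraphProduct Γ A) (v : V) (i j : (D v).L), Free D H g ∧ (∀ b, rot g v b ∈ H) ∧
      (u : GraphProduct Γ A) = rot g v (df i j)} := by
  generalize hn : d (R Γ D) (c D 1) (c D (u : GraphProduct Γ A)) = n
  induction n using Nat.strong_induction_on generalizing u with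
  | _ n ih =>
    by_cases hf : Free D H u
    · exact Subgroup.subset_closure (Or.inl hf)
    have key : ∀ (m : ℕ) (x : GraphProduct Γ A),
        d (R Γ D) (c D x) (c D (u : GraphProduct Γ A)) = m → Free D H x →
        d (R Γ D) (c D 1) (c D x) + m ≤ n → ∃ (x : GraphProduct Γ A) (v : V) (i j : (D v).L),
        Free D H x ∧ (∀ b, rot x v b ∈ H) ∧ d (R Γ D) (c D 1) (c D x) +
          d (R Γ D) (c D (x * inc Γ A v (df i j))) (c D (u : GraphProduct Γ A)) < n := by
      intro m
      induction m using Nat.strong_induction_on with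
      | _ m ihm =>
        intro x hx fx hle
        have hne : c D x ≠ c D (u : GraphProduct Γ A) := fun e => hf (c_inj e ▸ fx)
        obtain ⟨v, i, j, h⟩ := step (c_mem _) (by rw [ρ_c]) hne
        rw [← mul_df] at h
        by_cases hf' : Free D H (x * inc Γ A v (df i j))
        · refine ihm _ (by omega) _ rfl hf' ?_
          have e0 := c_leaf (D := D) (x * (gn Γ D v i)⁻¹) v i j
          rw [inv_mul_cancel_right, ← mul_df] at e0
          generalize π D (x * (gn Γ D v i)⁻¹) v i = i' at e0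
          generalize π D (x * (gn Γ D v i)⁻¹) v j = j' at e0
          have a1 := d_tri (R Γ D) (c D 1) (c D x) (c D (x * inc Γ A v (df i j)))
          have a2 := d_tri (R Γ D) (c D x) (c D x * s Γ D v i') (c D (x * inc Γ A v (df i j)))
          have a3 := d_step (R Γ D) (c D x) ⟨v, i'⟩
          have a4 := d_step (R Γ D) (c D x * s Γ D v i') ⟨v, j'⟩
          rw [e0] at a1 a2 h ⊢
          unfold s at *
          omega
        · refine ⟨x, v, i, j, fx, ?_, by omega⟩
          simp only [Free, not_forall] at hf'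
          obtain ⟨r, hr, h'⟩ := hf'
          rw [fx r hr] at h'
          obtain ⟨b, rfl | rfl⟩ := edge h'
          · exact hr.rot_mem
          · intro b
            have := hr.rot_mem ((df i j)⁻¹ * b * df i j)
            rw [rot_inc] at this
            simpa [mul_assoc] using this
    obtain ⟨x, v, i, j, fx, hx, hlt⟩ := key _ 1 rfl (fun _ _ => rfl) (by rw [d_self]; omega)
    have e : u = ⟨rot x v (df i j), hx _⟩ * ((⟨rot x v (df i j), hx _⟩ : H)⁻¹ * u) := by group
    rw [e]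
    refine mul_mem (Subgroup.subset_closure (Or.inr ⟨x, v, i, j, fx, hx, rfl⟩)) (ih _ ?_ _ rfl)
    have a1 := d_tri (R Γ D) (c D 1) (c D x) (c D ((rot x v (df i j))⁻¹ * u))
    have a2 := d_c_mul (D := D) (rot x v (df i j)) x ((rot x v (df i j))⁻¹ * u)
    rw [mul_inv_cancel_left,
      show rot x v (df i j) * x = x * inc Γ A v (df i j) by unfold rot; group] at a2
    show d (R Γ D) (c D 1) (c D ((rot x v (df i j))⁻¹ * u)) < n
    omega

end Pool.Agent.Lib.MP_7eef47_al.GQ
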